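import Pool.Agent.H141R3.Slope

set_option autoImplicit false

namespace Pool.Agent.H141R3.Ollivier

/-- The Cayley graph of a group with respect to a finite set: `g` is joined to `g * s`
for `s ∈ S`. -/
def cayley {Γ : Type} [Group Γ] (S : Finset Γ) : SimpleGraph Γ :=
  SimpleGraph.fromRel fun g h => ∃ s ∈ S, h = g * s

section cayley

variable {Γ : Type} [Group Γ] {S : Finset Γ}

theorem cayley_adj' {g h : Γ} : (cayley S).Adj g h ↔
    g ≠ h ∧ ((∃ s ∈ S, h = g * s) ∨ ∃ s ∈ S, g = h * s) := Iff.rfl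

theorem cayley_nbhd_finite (S : Finset Γ) (g : Γ) : ((cayley S).neighborSet g).Finite := by
  have h1 : ((fun s => g * s) '' (S : Set Γ)).Finite := S.finite_toSet.image _
  have h2 : ((fun s => g * s⁻¹) '' (S : Set Γ)).Finite := S.finite_toSet.image _
  refine (h1.union h2).subset ?_
  intro h hh
  rw [SimpleGraph.mem_neighborSet, cayley_adj'] at hh
  rcases hh.2 with ⟨s, hs, rfl⟩ | ⟨s, hs, e⟩
  · exact Or.inl ⟨s, hs, rfl⟩
  · refine Or.inr ⟨s, hs, ?_⟩
    rw [e]
    simp

/-- Cayley graphs of finite sets are locally finite. -/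
noncomputable instance (S : Finset Γ) : (cayley S).LocallyFinite :=
  fun g => (cayley_nbhd_finite S g).fintype

theorem cayley_adj (hsymm : ∀ s ∈ S, s⁻¹ ∈ S) (h1 : (1 : Γ) ∉ S) {g h : Γ} :
    (cayley S).Adj g h ↔ g⁻¹ * h ∈ S := by
  rw [cayley_adj']
  constructor
  · rintro ⟨-, ⟨s, hs, rfl⟩ | ⟨s, hs, rfl⟩⟩
    · simpa using hs
    · simpa using hsymm s hs
  · intro hs
    refine ⟨?_, Or.inl ⟨_, hs, by simp⟩⟩
    rintro rfl
    simp at hs
    exact h1 hs

theorem cayley_connected (hsymm : ∀ s ∈ S, s⁻¹ ∈ S) (h1 : (1 : Γ) ∉ S)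
    (hgen : Subgroup.closure (S : Set Γ) = ⊤) : (cayley S).Connected := by
  have key : ∀ g : Γ, ∀ a : Γ, (cayley S).Reachable a (a * g) := by
    intro g
    have hg : g ∈ Subgroup.closure (S : Set Γ) := by rw [hgen]; trivial
    induction hg using Subgroup.closure_induction with
    | mem s hs =>
      intro a
      apply SimpleGraph.Adj.reachable
      rw [cayley_adj hsymm h1]
      simpa using hs
    | one =>
      intro a
      rw [mul_one]
    | mul g h _ _ ihg ihh =>
      intro a
      rw [← mul_assoc]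
      exact (ihg a).trans (ihh (a * g))
    | inv g _ ih =>
      intro a
      have := ih (a * g⁻¹)
      rw [inv_mul_cancel_right] at this
      exact this.symm
  have : Nonempty Γ := ⟨1⟩
  refine SimpleGraph.Connected.mk ?_
  intro a b
  have := key (a⁻¹ * b) a
  rwa [mul_inv_cancel_left] at this

theorem sum_neighbor [DecidableEq Γ] (hsymm : ∀ s ∈ S, s⁻¹ ∈ S) (h1 : (1 : Γ) ∉ S) (g : Γ)
    (f : Γ → ℝ) : ∑ a ∈ (cayley S).neighborFinset g, f a = ∑ s ∈ S, f (g * s) := by
  have : (cayley S).neighborFinset g = S.image (fun s => g * s) := by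
    ext a
    rw [SimpleGraph.mem_neighborFinset, cayley_adj hsymm h1, Finset.mem_image]
    constructor
    · intro h
      exact ⟨_, h, by simp⟩
    · rintro ⟨s, hs, rfl⟩
      simpa using hs
  rw [this, Finset.sum_image]
  intro a _ b _ hab
  exact mul_left_cancel hab

theorem degree_cayley (hsymm : ∀ s ∈ S, s⁻¹ ∈ S) (h1 : (1 : Γ) ∉ S) (g : Γ) :
    (((cayley S).degree g : ℕ) : ℝ) = (S.card : ℝ) := by
  classical
  rw [← SimpleGraph.card_neighborFinset_eq_degree]
  have := sum_neighbor (S := S) hsymm h1 g (fun _ => (1 : ℝ))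
  simpa using this

end cayley

/-! ### The Heisenberg group -/

open Matrix

/-- The matrix with rows `(1, x, z)`, `(0, 1, y)`, `(0, 0, 1)`. -/
def unip (x y z : ℤ) : Matrix.SpecialLinearGroup (Fin 3) ℤ :=
  ⟨!![1, x, z; 0, 1, y; 0, 0, 1], by simp [Matrix.det_fin_three]⟩

theorem unip_mul (x y z x' y' z' : ℤ) :
    unip x y z * unip x' y' z' = unip (x + x') (y + y') (z + z' + x * y') := by
  refine Matrix.SpecialLinearGroup.ext _ _ fun i j => ?_
  rw [Matrix.SpecialLinearGroup.coe_mul]
  fin_cases i <;> fin_cases j <;> simp [unip, Matrix.mul_apply, Fin.sum_univ_three] <;> ring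

theorem eq_unip {A : Matrix.SpecialLinearGroup (Fin 3) ℤ}
    (hA : (∀ i, A.1 i i = 1) ∧ ∀ i j, j < i → A.1 i j = 0) :
    A = unip (A.1 0 1) (A.1 1 2) (A.1 0 2) := by
  obtain ⟨h1, h2⟩ := hA
  apply Subtype.ext
  ext i j
  have e10 := h2 1 0 (by decide)
  have e20 := h2 2 0 (by decide)
  have e21 := h2 2 1 (by decide)
  have d0 := h1 0
  have d1 := h1 1
  have d2 := h1 2
  fin_cases i <;> fin_cases j <;> simp [unip, e10, e20, e21, d0, d1, d2]

theorem unip_mem (x y z : ℤ) :
    (∀ i, (unip x y z).1 i i = 1) ∧ ∀ i j, j < i → (unip x y z).1 i j = 0 := by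
  constructor
  · intro i
    fin_cases i <;> simp [unip]
  · intro i j h
    fin_cases i <;> fin_cases j <;> simp [unip] at h ⊢

/-- The discrete Heisenberg group: the `3 × 3` upper triangular integer matrices with all
diagonal entries equal to `1`. -/
def Heis : Subgroup (Matrix.SpecialLinearGroup (Fin 3) ℤ) where
  carrier := {A | (∀ i, A.1 i i = 1) ∧ ∀ i j, j < i → A.1 i j = 0}
  mul_mem' := by
    intro A B hA hB
    rw [eq_unip hA, eq_unip hB, unip_mul]
    exact unip_mem _ _ _
  one_mem' := by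
    constructor
    · intro i
      simp
    · intro i j h
      simp [h.ne']
  inv_mem' := by
    intro A hA
    have h1 : A * unip (-(A.1 0 1)) (-(A.1 1 2)) (A.1 0 1 * A.1 1 2 - A.1 0 2) = 1 := by
      conv_lhs => rw [eq_unip hA]
      rw [unip_mul]
      apply Subtype.ext
      ext i j
      fin_cases i <;> fin_cases j <;> simp [unip]
    rw [inv_eq_of_mul_eq_one_right h1]
    exact unip_mem _ _ _

/-- coordinates -/
def cx (A : Heis) : ℤ := A.1.1 0 1
def cy (A : Heis) : ℤ := A.1.1 1 2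
def cz (A : Heis) : ℤ := A.1.1 0 2

theorem heis_mul (A B : Heis) : (A * B).1 =
    unip (cx A + cx B) (cy A + cy B) (cz A + cz B + cx A * cy B) := by
  rw [Subgroup.coe_mul]
  conv_lhs => rw [eq_unip A.2, eq_unip B.2]
  rw [unip_mul]
  rfl

theorem cx_mul (A B : Heis) : cx (A * B) = cx A + cx B := by
  have := congrArg (fun M : Matrix.SpecialLinearGroup (Fin 3) ℤ => M.1 0 1) (heis_mul A B)
  simpa [unip, cx] using this
theorem cy_mul (A B : Heis) : cy (A * B) = cy A + cy B := by
  have := congrArg (fun M : Matrix.SpecialLinearGroup (Fin 3) ℤ => M.1 1 2) (heis_mul A B)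
  simpa [unip, cy] using this
theorem cz_mul (A B : Heis) : cz (A * B) = cz A + cz B + cx A * cy B := by
  have := congrArg (fun M : Matrix.SpecialLinearGroup (Fin 3) ℤ => M.1 0 2) (heis_mul A B)
  simpa [unip, cz] using this

theorem exists_heis (x y z : ℤ) : ∃ A : Heis, cx A = x ∧ cy A = y ∧ cz A = z :=
  ⟨⟨unip x y z, unip_mem x y z⟩, by simp [cx, unip], by simp [cy, unip], by simp [cz, unip]⟩

theorem cx_inv (A : Heis) : cx A⁻¹ = - cx A := by
  have h := cx_mul A A⁻¹
  have h1 : cx (1 : Heis) = 0 := by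
    have := cx_mul 1 1
    rw [mul_one] at this
    omega
  rw [mul_inv_cancel, h1] at h
  omega
theorem cy_inv (A : Heis) : cy A⁻¹ = - cy A := by
  have h := cy_mul A A⁻¹
  have h1 : cy (1 : Heis) = 0 := by
    have := cy_mul 1 1
    rw [mul_one] at this
    omega
  rw [mul_inv_cancel, h1] at h
  omega

/-- the symmetric central coordinate (doubled) -/
def ze (A : Heis) : ℤ := 2 * cz A - cx A * cy A

theorem ze_mul (A B : Heis) : ze (A * B) = ze A + ze B + (cx A * cy B - cy A * cx B) := by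
  simp only [ze, cx_mul, cy_mul, cz_mul]
  ring

end Pool.Agent.H141R3.Ollivier
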