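import Pool.Agent.H141R3.Scott

set_option autoImplicit false

namespace Pool.Agent.H141R3.Scott

/-- Johnstone's dcpo `ℕ × (ℕ ∪ {∞})` with a new largest element `top`; `pt j k` is `(j, k)` and
`mx j` is `(j, ∞)`. -/
inductive JT : Type
  | pt (j k : ℕ) : JT
  | mx (j : ℕ) : JT
  | top : JT

namespace JT

/-- the order of Johnstone's dcpo, extended by a largest element -/
def le : JT → JT → Prop
  | pt j k, pt m n => j = m ∧ k ≤ n
  | pt j k, mx m => j = m ∨ k ≤ m
  | pt _ _, top => True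
  | mx _, pt _ _ => False
  | mx j, mx m => j = m
  | mx _, top => True
  | top, pt _ _ => False
  | top, mx _ => False
  | top, top => True

instance : PartialOrder JT where
  le := le
  le_refl := by
    intro a
    cases a <;> simp [le]
  le_trans := by
    intro a b c hab hbc
    cases a <;> cases b <;> cases c <;> simp only [le] at hab hbc ⊢ <;> omega
  le_antisymm := by
    intro a b hab hba
    cases a <;> cases b <;> simp_all [le]
    omega

theorem pt_le_pt {j k m n : ℕ} : pt j k ≤ pt m n ↔ j = m ∧ k ≤ n := Iff.rfl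
theorem pt_le_mx {j k m : ℕ} : pt j k ≤ mx m ↔ j = m ∨ k ≤ m := Iff.rfl
theorem mx_le_mx {j m : ℕ} : mx j ≤ mx m ↔ j = m := Iff.rfl
theorem le_top' (a : JT) : a ≤ top := by cases a <;> exact trivial
theorem not_top_le_mx (m : ℕ) : ¬ top ≤ mx m := fun h => h
theorem not_top_le_pt (m n : ℕ) : ¬ top ≤ pt m n := fun h => h
theorem not_mx_le_pt (j m n : ℕ) : ¬ mx j ≤ pt m n := fun h => h

theorem top_of_mx_le {j : ℕ} {a : JT} (h : mx j ≤ a) : a = mx j ∨ a = top := by
  cases a with
  | pt m n => exact absurd h (not_mx_le_pt _ _ _)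
  | mx m => left; rw [mx_le_mx.1 h]
  | top => exact Or.inr rfl

/-- The structure of directed sets without `top`: either there is a largest element or the set is
an unbounded part of a column. -/
theorem directed_cases {D : Set JT} (hne : D.Nonempty) (hdir : DirectedOn (· ≤ ·) D)
    (htop : top ∉ D) : (∃ a ∈ D, a ≠ top ∧ ∀ d ∈ D, d ≤ a) ∨
      ∃ j, D ⊆ Set.range (pt j) ∧ ∀ n, ∃ k, n ≤ k ∧ pt j k ∈ D := by
  by_cases hmx : ∃ j, mx j ∈ D
  · obtain ⟨j, hj⟩ := hmx
    left
    refine ⟨mx j, hj, by simp, fun d hd => ?_⟩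
    obtain ⟨c, hc, h1, h2⟩ := hdir (mx j) hj d hd
    rcases top_of_mx_le h1 with rfl | rfl
    · exact h2
    · exact absurd hc htop
  · push Not at hmx
    obtain ⟨a, ha⟩ := hne
    have hpt : ∀ d ∈ D, ∃ j k, d = pt j k := by
      intro d hd
      cases d with
      | pt j k => exact ⟨j, k, rfl⟩
      | mx j => exact absurd hd (hmx j)
      | top => exact absurd hd htop
    obtain ⟨j, k, rfl⟩ := hpt a ha
    have hcol : ∀ d ∈ D, ∃ k, d = pt j k := by
      intro d hd
      obtain ⟨c, hc, h1, h2⟩ := hdir _ ha d hd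
      obtain ⟨j', k', rfl⟩ := hpt d hd
      obtain ⟨j'', k'', rfl⟩ := hpt c hc
      refine ⟨k', ?_⟩
      rw [(pt_le_pt.1 h1).1, (pt_le_pt.1 h2).1]
    by_cases hb : ∀ n, ∃ k, n ≤ k ∧ pt j k ∈ D
    · right
      refine ⟨j, fun d hd => ?_, hb⟩
      obtain ⟨k, rfl⟩ := hcol d hd
      exact ⟨k, rfl⟩
    · left
      push Not at hb
      obtain ⟨n, hn⟩ := hb
      have hbd : ∀ k, pt j k ∈ D → k ≤ n := by
        intro k hk
        by_contra hlt
        exact hn k (by omega) hk
      have hfin : {k | pt j k ∈ D}.Finite := (Set.finite_Iic n).subset hbd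
      obtain ⟨K, hK, hmax⟩ := Set.exists_max_image _ id hfin ⟨k, ha⟩
      refine ⟨pt j K, hK, by simp, fun d hd => ?_⟩
      obtain ⟨k', rfl⟩ := hcol d hd
      exact pt_le_pt.2 ⟨rfl, hmax k' hd⟩

theorem isLUB_column {D : Set JT} {j : ℕ} (hD : D ⊆ Set.range (pt j))
    (hu : ∀ n, ∃ k, n ≤ k ∧ pt j k ∈ D) : IsLUB D (mx j) := by
  constructor
  · intro d hd
    obtain ⟨k, rfl⟩ := hD hd
    exact pt_le_mx.2 (Or.inl rfl)
  · intro b hb
    cases b with
    | pt m n =>
      obtain ⟨k, hk, hkD⟩ := hu (n + 1)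
      have := (pt_le_pt.1 (hb hkD)).2
      omega
    | mx m =>
      obtain ⟨k, hk, hkD⟩ := hu (m + 1)
      rcases pt_le_mx.1 (hb hkD) with h | h
      · exact mx_le_mx.2 h
      · omega
    | top => exact le_top' _

theorem exists_lub {D : Set JT} (hne : D.Nonempty) (hdir : DirectedOn (· ≤ ·) D)
    (htop : top ∉ D) : ∃ s, s ≠ top ∧ IsLUB D s := by
  rcases directed_cases hne hdir htop with ⟨a, haD, ha, hmax⟩ | ⟨j, h1, h2⟩
  · exact ⟨a, ha, hmax, fun b hb => hb haD⟩
  · exact ⟨mx j, by simp, isLUB_column h1 h2⟩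

theorem isDcpo : IsDcpo JT := by
  intro D hne hdir
  by_cases htop : top ∈ D
  · exact ⟨top, fun d _ => le_top' d, fun b hb => hb htop⟩
  · obtain ⟨s, -, hs⟩ := exists_lub hne hdir htop
    exact ⟨s, hs⟩

/-- The top element is isolated in the Scott topology. -/
theorem open_top : ScottOpen ({top} : Set JT) := by
  constructor
  · rintro a b hab rfl
    exact le_antisymm (le_top' b) hab
  · rintro D hne hdir s hs rfl
    by_contra hcon
    have htop : top ∉ D := fun h => hcon ⟨top, h, rfl⟩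
    obtain ⟨s, hs1, hs2⟩ := exists_lub hne hdir htop
    exact hs1 (hs2.unique hs)

/-- Scott open sets other than `∅` and `{top}` contain almost all `mx m`. -/
theorem open_cofinite {U : Set JT} (hU : ScottOpen U) {a : JT} (ha : a ∈ U) (hat : a ≠ top) :
    ∃ k, ∀ m, k ≤ m → mx m ∈ U := by
  have hpt : ∀ j k, pt j k ∈ U → ∃ k, ∀ m, k ≤ m → mx m ∈ U := fun j k h =>
    ⟨k, fun m hm => hU.1 (pt_le_mx.2 (Or.inr hm)) h⟩
  cases a with
  | pt j k => exact hpt j k ha
  | mx j =>
    obtain ⟨_, ⟨k, rfl⟩, hk⟩ := hU.2 (Set.range (pt j)) (Set.range_nonempty _) (by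
      rintro _ ⟨a, rfl⟩ _ ⟨b, rfl⟩
      exact ⟨pt j (max a b), ⟨_, rfl⟩, pt_le_pt.2 ⟨rfl, le_max_left _ _⟩,
        pt_le_pt.2 ⟨rfl, le_max_right _ _⟩⟩) (mx j)
      (isLUB_column le_rfl fun n => ⟨n, le_rfl, n, rfl⟩) ha
    exact hpt j k hk
  | top => exact absurd rfl hat

theorem not_wellFiltered : ¬ WellFiltered (scottTopology JT) := by
  intro h
  let K : ℕ → Set JT := fun n => {a | a = top ∨ ∃ m, n ≤ m ∧ a = mx m}
  have hKmono : ∀ n m, n ≤ m → K m ⊆ K n := by
    rintro n m hnm a (rfl | ⟨l, hl, rfl⟩)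
    · exact Or.inl rfl
    · exact Or.inr ⟨l, hnm.trans hl, rfl⟩
  obtain ⟨_, ⟨n, rfl⟩, hsub⟩ := h.2 (Set.range K) (Set.range_nonempty _) (by
    rintro _ ⟨a, rfl⟩ _ ⟨b, rfl⟩
    exact ⟨K (max a b), ⟨_, rfl⟩, hKmono _ _ (le_max_left _ _), hKmono _ _ (le_max_right _ _)⟩) (by
    rintro _ ⟨n, rfl⟩
    constructor
    · let _ := scottTopology JT
      refine isCompact_of_finite_subcover fun {ι} U hU hcov => ?_
      classical
      have hmx : ∀ m, n ≤ m → ∃ i, mx m ∈ U i := fun m hm =>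
        Set.mem_iUnion.1 (hcov (Or.inr ⟨m, hm, rfl⟩))
      obtain ⟨i₀, hi₀⟩ := hmx n le_rfl
      obtain ⟨k, hk⟩ := open_cofinite (hU i₀) hi₀ (by simp)
      have hch : ∀ m, ∃ i, n ≤ m → mx m ∈ U i := by
        intro m
        by_cases hm : n ≤ m
        · obtain ⟨i, hi⟩ := hmx m hm
          exact ⟨i, fun _ => hi⟩
        · exact ⟨i₀, fun h => absurd h hm⟩
      choose c hc using hch
      refine ⟨insert i₀ ((Finset.range k).image c), ?_⟩
      rintro a (rfl | ⟨m, hm, rfl⟩)
      · refine Set.mem_iUnion₂.2 ⟨i₀, Finset.mem_insert_self _ _, ?_⟩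
        exact (show ScottOpen (U i₀) from hU i₀).1 (le_top' _) hi₀
      · by_cases hmk : k ≤ m
        · exact Set.mem_iUnion₂.2 ⟨i₀, Finset.mem_insert_self _ _, hk m hmk⟩
        · refine Set.mem_iUnion₂.2 ⟨c m, ?_, hc m hm⟩
          refine Finset.mem_insert_of_mem (Finset.mem_image.2 ⟨m, ?_, rfl⟩)
          rw [Finset.mem_range]
          omega
    · apply saturated_of_isUpperSet
      rintro a b hab (rfl | ⟨m, hm, rfl⟩)
      · exact Or.inl (le_antisymm (le_top' b) hab)
      · rcases top_of_mx_le hab with rfl | rfl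
        · exact Or.inr ⟨m, hm, rfl⟩
        · exact Or.inl rfl) {top} open_top (by
    intro a ha
    have h0 := ha (K 0) ⟨0, rfl⟩
    rcases h0 with rfl | ⟨m, -, rfl⟩
    · rfl
    · rcases ha (K (m + 1)) ⟨m + 1, rfl⟩ with h1 | ⟨l, hl, h1⟩
      · simp at h1
      · have : m = l := by simpa using h1
        omega)
  have := hsub (Or.inr ⟨n, le_rfl, rfl⟩ : mx n ∈ K n)
  simp at this

/-- The coarser topology: `∅` and the Scott open sets containing almost all `mx m`. -/
@[instance_reducible] def tau : TopologicalSpace JT where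
  IsOpen U := ScottOpen U ∧ (U.Nonempty → ∃ k, ∀ m, k ≤ m → mx m ∈ U)
  isOpen_univ := ⟨(scottTopology JT).isOpen_univ, fun _ => ⟨0, fun _ _ => trivial⟩⟩
  isOpen_inter := by
    rintro U V ⟨hU1, hU2⟩ ⟨hV1, hV2⟩
    refine ⟨(scottTopology JT).isOpen_inter _ _ hU1 hV1, fun hne => ?_⟩
    obtain ⟨k, hk⟩ := hU2 hne.left
    obtain ⟨l, hl⟩ := hV2 hne.right
    exact ⟨max k l, fun m hm => ⟨hk m ((le_max_left _ _).trans hm), hl m ((le_max_right _ _).trans hm)⟩⟩
  isOpen_sUnion := by
    intro 𝒰 h𝒰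
    refine ⟨(scottTopology JT).isOpen_sUnion _ fun U hU => (h𝒰 U hU).1, ?_⟩
    rintro ⟨a, U, hU, haU⟩
    obtain ⟨k, hk⟩ := (h𝒰 U hU).2 ⟨a, haU⟩
    exact ⟨k, fun m hm => ⟨U, hU, hk m hm⟩⟩

theorem tau_closed_Iic (x : JT) : @IsClosed JT tau (Set.Iic x) := by
  refine @IsClosed.mk JT tau _ ⟨open_compl_Iic x, ?_⟩
  cases x with
  | pt j k => exact fun _ => ⟨0, fun m _ h => not_mx_le_pt m j k h⟩
  | mx j => exact fun _ => ⟨j + 1, fun m hm h => by
      have := mx_le_mx.1 h
      omega⟩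
  | top =>
    rintro ⟨a, ha⟩
    exact absurd (le_top' a) ha

theorem tau_upper {U : Set JT} (hU : @IsOpen JT tau U) : IsUpperSet U :=
  (show ScottOpen U ∧ _ from hU).1.1

theorem tau_lower {A : Set JT} (hA : @IsClosed JT tau A) : IsLowerSet A :=
  isUpperSet_compl.1 (tau_upper hA.isOpen_compl)

theorem tau_compatible : Compatible tau := by
  intro x
  let _ := tau
  apply Set.Subset.antisymm
  · exact closure_minimal (Set.singleton_subset_iff.2 (le_refl x)) (tau_closed_Iic x)
  · intro y hy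
    rw [mem_closure_iff]
    intro o ho hyo
    exact ⟨x, tau_upper ho hy hyo, rfl⟩

theorem tau_sat {K : Set JT} (h : Saturated tau K) : IsUpperSet K := by
  obtain ⟨𝒰, h1, rfl⟩ := h
  exact isUpperSet_sInter fun U hU => tau_upper (h1 U hU)

theorem tau_t0 : @T0Space JT tau := by
  let _ := tau
  refine ⟨fun x y h => ?_⟩
  apply le_antisymm
  · by_contra hn
    have h1 : x ∈ (Set.Iic y)ᶜ := hn
    have h2 := (h.mem_open_iff (tau_closed_Iic y).isOpen_compl).1 h1
    exact h2 (le_refl y)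
  · by_contra hn
    have h1 : y ∈ (Set.Iic x)ᶜ := hn
    have h2 := (h.mem_open_iff (tau_closed_Iic x).isOpen_compl).2 h1
    exact h2 (le_refl x)

/-- scott-closedness from the column criterion -/
theorem tau_closed_of {B : Set JT} (hlow : IsLowerSet B)
    (hcol : ∀ j, (∀ n, ∃ k, n ≤ k ∧ pt j k ∈ B) → mx j ∈ B) (htop : top ∉ B)
    (hfin : ∃ k, ∀ m, k ≤ m → mx m ∉ B) : @IsClosed JT tau B := by
  refine @IsClosed.mk JT tau _ ⟨⟨isUpperSet_compl.2 hlow, fun D hD hdir s hs hmem => ?_⟩,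
    fun _ => hfin⟩
  by_contra hcon
  have hDB : D ⊆ B := by
    intro d hd
    by_contra h
    exact hcon ⟨d, hd, h⟩
  have htD : top ∉ D := fun h => htop (hDB h)
  rcases directed_cases hD hdir htD with ⟨a, haD, -, hmax⟩ | ⟨j, h1, h2⟩
  · have : s = a := hs.unique ⟨hmax, fun b hb => hb haD⟩
    rw [this] at hmem
    exact hmem (hDB haD)
  · have : s = mx j := hs.unique (isLUB_column h1 h2)
    rw [this] at hmem
    exact hmem (hcol j fun n => (h2 n).imp fun k hk => ⟨hk.1, hDB hk.2⟩)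

/-- Irreducible closed sets of the coarser topology are closures of points. -/
theorem tau_sober {A : Set JT} (hA : @IsClosed JT tau A) (hne : A.Nonempty)
    (hirr : ∀ (F : Finset (Set JT)), (∀ B ∈ F, @IsClosed JT tau B) → A ⊆ ⋃₀ (F : Set (Set JT)) →
      ∃ B ∈ F, A ⊆ B) : ∃ x, A = Set.Iic x := by
  classical
  have hlow := tau_lower hA
  have hopen : ScottOpen Aᶜ ∧ (Aᶜ.Nonempty → ∃ k, ∀ m, k ≤ m → mx m ∈ Aᶜ) := hA.isOpen_compl
  by_cases htop : top ∈ A
  · refine ⟨top, Set.Subset.antisymm (fun a _ => le_top' a) fun a ha => hlow ha htop⟩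
  · obtain ⟨k, hk⟩ := hopen.2 ⟨top, htop⟩
    have hcolA : ∀ j, (∀ n, ∃ k, n ≤ k ∧ pt j k ∈ A) → mx j ∈ A := by
      intro j hj
      by_contra hmem
      obtain ⟨a, ⟨ha1, ha2⟩, ha3⟩ := hopen.1.2 {a | a ∈ A ∧ ∃ k, a = pt j k} (by
        obtain ⟨k, -, hk⟩ := hj 0
        exact ⟨_, hk, k, rfl⟩) (by
        rintro _ ⟨ha, a, rfl⟩ _ ⟨hb, b, rfl⟩
        rcases le_total a b with h | h
        · exact ⟨pt j b, ⟨hb, b, rfl⟩, pt_le_pt.2 ⟨rfl, h⟩, le_refl _⟩
        · exact ⟨pt j a, ⟨ha, a, rfl⟩, le_refl _, pt_le_pt.2 ⟨rfl, h⟩⟩) (mx j)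
        (isLUB_column (by
          rintro _ ⟨-, a, rfl⟩
          exact ⟨a, rfl⟩) fun n => (hj n).imp fun k hk => ⟨hk.1, hk.2, k, rfl⟩) hmem
      exact ha3 ha1
    -- the finitely many maximal elements and the rest
    let A' : Set JT := {a | a ∈ A ∧ ∃ j l, a = pt j l ∧ mx j ∉ A}
    have hA'cl : @IsClosed JT tau A' := by
      apply tau_closed_of
      · rintro a b hab ⟨ha, j, l, rfl, hj⟩
        cases b with
        | pt m n =>
          refine ⟨hlow hab ha, m, n, rfl, ?_⟩
          rw [(pt_le_pt.1 hab).1]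
          exact hj
        | mx m => exact absurd hab (not_mx_le_pt _ _ _)
        | top => exact absurd hab (not_top_le_pt _ _)
      · intro j hj
        exfalso
        have h1 : mx j ∈ A := hcolA j fun n => (hj n).imp fun k hk => ⟨hk.1, hk.2.1⟩
        obtain ⟨k', -, -, m, l, e, h2⟩ := hj 0
        have : j = m := by
          have := e
          simp at this
          exact this.1
        rw [← this] at h2
        exact h2 h1
      · rintro ⟨-, j, l, e, -⟩
        simp at e
      · refine ⟨0, fun m _ => ?_⟩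
        rintro ⟨-, j, l, e, -⟩
        simp at e
    let F : Finset (Set JT) := insert A' (((Finset.range k).filter fun m => mx m ∈ A).image
      fun m => Set.Iic (mx m))
    obtain ⟨B, hB, hAB⟩ := hirr F (by
      intro B hB
      rcases Finset.mem_insert.1 hB with rfl | hB
      · exact hA'cl
      · obtain ⟨m, -, rfl⟩ := Finset.mem_image.1 hB
        exact tau_closed_Iic _) (by
      intro a ha
      cases a with
      | pt j l =>
        by_cases hj : mx j ∈ A
        · have hjk : j < k := by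
            by_contra hle
            exact hk j (by omega) hj
          refine ⟨Set.Iic (mx j), ?_, pt_le_mx.2 (Or.inl rfl)⟩
          exact Finset.mem_coe.2 (Finset.mem_insert_of_mem (Finset.mem_image.2 ⟨j,
            Finset.mem_filter.2 ⟨Finset.mem_range.2 hjk, hj⟩, rfl⟩))
        · exact ⟨A', Finset.mem_coe.2 (Finset.mem_insert_self _ _), ha, j, l, rfl, hj⟩
      | mx j =>
        have hjk : j < k := by
          by_contra hle
          exact hk j (by omega) ha
        refine ⟨Set.Iic (mx j), ?_, Set.mem_Iic.2 (le_refl _)⟩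
        exact Finset.mem_coe.2 (Finset.mem_insert_of_mem (Finset.mem_image.2 ⟨j,
          Finset.mem_filter.2 ⟨Finset.mem_range.2 hjk, ha⟩, rfl⟩))
      | top => exact absurd ha htop)
    rcases Finset.mem_insert.1 hB with rfl | hB
    · -- no maximal element at all: pick a column
      obtain ⟨a, ha⟩ := hne
      obtain ⟨-, j, l, rfl, hj⟩ := hAB ha
      have hbd : ∃ n, ∀ k', pt j k' ∈ A → k' ≤ n := by
        by_contra hcon
        push Not at hcon
        exact hj (hcolA j fun n => (hcon n).imp fun k' hk' => ⟨hk'.2.le, hk'.1⟩)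
      obtain ⟨n, hn⟩ := hbd
      have hfin : {k' | pt j k' ∈ A}.Finite := (Set.finite_Iic n).subset hn
      obtain ⟨L, hL, hmax⟩ := Set.exists_max_image _ id hfin ⟨l, ha⟩
      refine ⟨pt j L, ?_⟩
      have hrest : @IsClosed JT tau {a | a ∈ A ∧ ∀ l, a ≠ pt j l} := by
        apply tau_closed_of
        · rintro a b hab ⟨ha, hne⟩
          obtain ⟨-, j', l', rfl, hj'⟩ := hAB ha
          refine ⟨hlow hab ha, fun l'' e => ?_⟩
          subst e
          have := (pt_le_pt.1 hab).1
          exact hne l' (by rw [this])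
        · intro i hi
          exfalso
          have h1 : mx i ∈ A := hcolA i fun n => (hi n).imp fun k hk => ⟨hk.1, hk.2.1⟩
          obtain ⟨-, j', l', e, -⟩ := hAB h1
          simp at e
        · rintro ⟨h, -⟩
          exact htop h
        · refine ⟨0, fun m _ h => ?_⟩
          obtain ⟨-, j', l', e, -⟩ := hAB h.1
          simp at e
      obtain ⟨B, hB, hAB'⟩ := hirr {Set.Iic (pt j L), {a | a ∈ A ∧ ∀ l, a ≠ pt j l}} (by
        intro B hB
        rw [Finset.mem_insert, Finset.mem_singleton] at hB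
        rcases hB with rfl | rfl
        · exact tau_closed_Iic _
        · exact hrest) (by
        intro a ha
        by_cases h : ∃ l, a = pt j l
        · obtain ⟨l', rfl⟩ := h
          exact ⟨Set.Iic (pt j L), by simp, pt_le_pt.2 ⟨rfl, hmax l' ha⟩⟩
        · push Not at h
          exact ⟨{a | a ∈ A ∧ ∀ l, a ≠ pt j l}, by simp, ha, h⟩)
      rw [Finset.mem_insert, Finset.mem_singleton] at hB
      rcases hB with rfl | rfl
      · exact Set.Subset.antisymm hAB' fun a ha => hlow ha hL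
      · exact absurd rfl ((hAB' hL).2 L)
    · obtain ⟨m, hm, rfl⟩ := Finset.mem_image.1 hB
      refine ⟨mx m, Set.Subset.antisymm hAB fun a ha => hlow ha (Finset.mem_filter.1 hm).2⟩

theorem tau_wellFiltered : WellFiltered tau := by
  refine ⟨tau_t0, fun 𝒦 hne hdir hK U hU hsub => ?_⟩
  by_contra hcon
  push Not at hcon
  let _ := tau
  have hKc : ∀ K ∈ 𝒦, IsCompact K := fun K h => (hK K h).1
  have hU' : IsOpen U := hU
  obtain ⟨A, hAC, hAcl, hmeet, hmin⟩ := exists_minimal hKc hU'.isClosed_compl (by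
    intro K h
    obtain ⟨x, hx, hxU⟩ := Set.not_subset.1 (hcon K h)
    exact ⟨x, hx, hxU⟩)
  have hAne : A.Nonempty := by
    obtain ⟨K, h⟩ := hne
    exact (hmeet K h).right
  have hfinirr : ∀ (F : Finset (Set JT)), (∀ B ∈ F, IsClosed B) →
      A ⊆ ⋃₀ (F : Set (Set JT)) → ∃ B ∈ F, A ⊆ B := by
    classical
    intro F
    induction F using Finset.induction_on with
    | empty =>
      intro _ h
      obtain ⟨a, ha⟩ := hAne
      obtain ⟨B, hB, -⟩ := h ha
      simp at hB
    | insert B F _ ih =>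
      intro hcl hcov
      by_cases hB : ∀ K ∈ 𝒦, (K ∩ (A ∩ B)).Nonempty
      · exact ⟨B, Finset.mem_insert_self _ _, hmin B (hcl B (Finset.mem_insert_self _ _)) hB⟩
      · push Not at hB
        obtain ⟨K₀, hK₀, hemp⟩ := hB
        have hclF : IsClosed (⋃₀ (F : Set (Set JT))) := by
          rw [Set.sUnion_eq_biUnion]
          exact F.finite_toSet.isClosed_biUnion fun B' hB' =>
            hcl B' (Finset.mem_insert_of_mem (Finset.mem_coe.1 hB'))
        have h1 : A ⊆ ⋃₀ (F : Set (Set JT)) := hmin _ hclF (by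
          intro K hKm
          obtain ⟨K', hK', h1, h2⟩ := hdir K hKm K₀ hK₀
          obtain ⟨x, hx1, hx2⟩ := hmeet K' hK'
          refine ⟨x, h1 hx1, hx2, ?_⟩
          obtain ⟨B', hB', hxB'⟩ := hcov hx2
          rw [Finset.coe_insert] at hB'
          rcases hB' with rfl | hB'
          · exact absurd (show x ∈ K₀ ∩ (A ∩ B') from ⟨h2 hx1, hx2, hxB'⟩) (by
              rw [hemp]
              exact Set.notMem_empty _)
          · exact ⟨B', hB', hxB'⟩)
        obtain ⟨B', hB', h2⟩ := ih (fun B' hB' => hcl B' (Finset.mem_insert_of_mem hB')) h1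
        exact ⟨B', Finset.mem_insert_of_mem hB', h2⟩
  obtain ⟨x, rfl⟩ := tau_sober hAcl hAne hfinirr
  have hx : x ∈ ⋂₀ 𝒦 := by
    intro K h
    obtain ⟨y, hy, hyx⟩ := hmeet K h
    exact tau_sat (hK K h).2 hyx hy
  exact hAC (show x ∈ Set.Iic x from le_refl x) (hsub hx)

theorem wellFilteredPoset : WellFilteredPoset JT := ⟨tau, tau_compatible, tau_wellFiltered⟩

end JT

end Pool.Agent.H141R3.Scott
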