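import Mathlib

set_option autoImplicit false
open scoped ENNReal

namespace Pool.Agent.H141R3.Ollivier

variable {V : Type}

/-- One step of simple random walk from `x`: the uniform law on the neighbours of `x`
(the point mass at `x` if `x` has no neighbour). -/
noncomputable def stepLaw (G : SimpleGraph V) [G.LocallyFinite] (x : V) : PMF V :=
  if h : (G.neighborFinset x).Nonempty then PMF.uniformOfFinset (G.neighborFinset x) h
  else PMF.pure x

/-- `π` is a coupling of `μ` and `ν`. -/
def IsCoupling (μ ν : PMF V) (π : PMF (V × V)) : Prop :=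
  π.map Prod.fst = μ ∧ π.map Prod.snd = ν

/-- The `L¹` Wasserstein distance with respect to the graph metric. -/
noncomputable def W1 (G : SimpleGraph V) (μ ν : PMF V) : ℝ≥0∞ :=
  ⨅ (π : PMF (V × V)) (_ : IsCoupling μ ν π), ∑' p : V × V, π p * (G.dist p.1 p.2 : ℝ≥0∞)

/-- The Ollivier-Ricci curvature `1 - W₁(μ_x, μ_y) / d(x, y)`. -/
noncomputable def curvature (G : SimpleGraph V) [G.LocallyFinite] (x y : V) : ℝ :=
  1 - (W1 G (stepLaw G x) (stepLaw G y)).toReal / (G.dist x y : ℝ)

/-- A transport plan between the neighbours of `x` and those of `y`, of cost at most `c`. -/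
structure Plan (G : SimpleGraph V) [G.LocallyFinite] (x y : V) (c : ℝ) (w : V → V → ℝ) : Prop where
  nonneg : ∀ a b, 0 ≤ w a b
  supp : ∀ a b, w a b ≠ 0 → G.Adj x a ∧ G.Adj y b
  row : ∀ a, G.Adj x a → ∑ b ∈ G.neighborFinset y, w a b = 1 / (G.degree x : ℝ)
  col : ∀ b, G.Adj y b → ∑ a ∈ G.neighborFinset x, w a b = 1 / (G.degree y : ℝ)
  cost : ∑ a ∈ G.neighborFinset x, ∑ b ∈ G.neighborFinset y, w a b * (G.dist a b : ℝ) ≤ c

section plan

variable (G : SimpleGraph V) [G.LocallyFinite]

theorem stepLaw_apply_adj {x : V} (hx : (G.neighborFinset x).Nonempty) {a : V} (h : G.Adj x a) :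
    stepLaw G x a = ((G.degree x : ℝ≥0∞))⁻¹ := by
  classical
  rw [stepLaw, dif_pos hx, PMF.uniformOfFinset_apply,
    if_pos ((SimpleGraph.mem_neighborFinset _ _ _).2 h), SimpleGraph.card_neighborFinset_eq_degree]

theorem stepLaw_apply_not {x : V} (hx : (G.neighborFinset x).Nonempty) {a : V}
    (h : ¬ G.Adj x a) : stepLaw G x a = 0 := by
  classical
  rw [stepLaw, dif_pos hx, PMF.uniformOfFinset_apply,
    if_neg (fun h' => h ((SimpleGraph.mem_neighborFinset _ _ _).1 h'))]

theorem coupling_supp {x y : V} (hx : (G.neighborFinset x).Nonempty)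
    (hy : (G.neighborFinset y).Nonempty) {π : PMF (V × V)}
    (h : IsCoupling (stepLaw G x) (stepLaw G y) π) {a b : V} (hab : π (a, b) ≠ 0) :
    G.Adj x a ∧ G.Adj y b := by
  classical
  constructor
  · by_contra hn
    have h1 : stepLaw G x a = 0 := stepLaw_apply_not G hx hn
    rw [← h.1, PMF.map_apply, ENNReal.tsum_eq_zero] at h1
    have := h1 (a, b)
    simp at this
    exact hab this
  · by_contra hn
    have h1 : stepLaw G y b = 0 := stepLaw_apply_not G hy hn
    rw [← h.2, PMF.map_apply, ENNReal.tsum_eq_zero] at h1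
    have := h1 (a, b)
    simp at this
    exact hab this

theorem coupling_row {x y : V} (hx : (G.neighborFinset x).Nonempty)
    (hy : (G.neighborFinset y).Nonempty) {π : PMF (V × V)}
    (h : IsCoupling (stepLaw G x) (stepLaw G y) π) {a : V} (ha : G.Adj x a) :
    ∑ b ∈ G.neighborFinset y, π (a, b) = ((G.degree x : ℝ≥0∞))⁻¹ := by
  classical
  have h1 : stepLaw G x a = ((G.degree x : ℝ≥0∞))⁻¹ := stepLaw_apply_adj G hx ha
  rw [← h1, ← h.1, PMF.map_apply, ENNReal.tsum_prod']
  rw [tsum_eq_single a]
  · simp only [if_true]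
    rw [tsum_eq_sum]
    intro b hb
    by_contra hn
    exact hb ((SimpleGraph.mem_neighborFinset _ _ _).2 (coupling_supp G hx hy h hn).2)
  · intro c hc
    simp [Ne.symm hc]

theorem coupling_col {x y : V} (hx : (G.neighborFinset x).Nonempty)
    (hy : (G.neighborFinset y).Nonempty) {π : PMF (V × V)}
    (h : IsCoupling (stepLaw G x) (stepLaw G y) π) {b : V} (hb : G.Adj y b) :
    ∑ a ∈ G.neighborFinset x, π (a, b) = ((G.degree y : ℝ≥0∞))⁻¹ := by
  classical
  have h1 : stepLaw G y b = ((G.degree y : ℝ≥0∞))⁻¹ := stepLaw_apply_adj G hy hb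
  rw [← h1, ← h.2, PMF.map_apply, ENNReal.tsum_prod', ENNReal.tsum_comm]
  rw [tsum_eq_single b]
  · simp only [if_true]
    rw [tsum_eq_sum]
    intro a ha
    by_contra hn
    exact ha ((SimpleGraph.mem_neighborFinset _ _ _).2 (coupling_supp G hx hy h hn).1)
  · intro c hc
    simp [Ne.symm hc]

theorem coupling_cost {x y : V} (hx : (G.neighborFinset x).Nonempty)
    (hy : (G.neighborFinset y).Nonempty) {π : PMF (V × V)}
    (h : IsCoupling (stepLaw G x) (stepLaw G y) π) :
    ∑' p : V × V, π p * (G.dist p.1 p.2 : ℝ≥0∞) =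
      ∑ a ∈ G.neighborFinset x, ∑ b ∈ G.neighborFinset y, π (a, b) * (G.dist a b : ℝ≥0∞) := by
  classical
  rw [ENNReal.tsum_prod', tsum_eq_sum (s := G.neighborFinset x)]
  · refine Finset.sum_congr rfl fun a _ => ?_
    rw [tsum_eq_sum]
    intro b hb
    have : π (a, b) = 0 := by
      by_contra hn
      exact hb ((SimpleGraph.mem_neighborFinset _ _ _).2 (coupling_supp G hx hy h hn).2)
    simp [this]
  · intro a ha
    rw [ENNReal.tsum_eq_zero]
    intro b
    have : π (a, b) = 0 := by
      by_contra hn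
      exact ha ((SimpleGraph.mem_neighborFinset _ _ _).2 (coupling_supp G hx hy h hn).1)
    simp [this]

theorem exists_coupling_ne_top {x y : V} (hx : (G.neighborFinset x).Nonempty)
    (hy : (G.neighborFinset y).Nonempty) : W1 G (stepLaw G x) (stepLaw G y) ≠ ⊤ := by
  classical
  set π : PMF (V × V) := (stepLaw G x).bind fun a => (stepLaw G y).map (Prod.mk a) with hπ
  have hc : IsCoupling (stepLaw G x) (stepLaw G y) π := by
    constructor
    · rw [hπ, PMF.map_bind]
      have : (fun a : V => PMF.map Prod.fst (PMF.map (Prod.mk a) (stepLaw G y))) = PMF.pure := by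
        funext a
        rw [PMF.map_comp]
        exact PMF.map_const _ _
      rw [this, PMF.bind_pure]
    · rw [hπ, PMF.map_bind]
      have : (fun a : V => PMF.map Prod.snd (PMF.map (Prod.mk a) (stepLaw G y))) =
          fun _ => stepLaw G y := by
        funext a
        rw [PMF.map_comp]
        exact PMF.map_id _
      rw [this, PMF.bind_const]
  have h1 : W1 G (stepLaw G x) (stepLaw G y) ≤
      ∑' p : V × V, π p * (G.dist p.1 p.2 : ℝ≥0∞) := iInf₂_le π hc
  refine ne_top_of_le_ne_top ?_ h1
  rw [coupling_cost G hx hy hc]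
  refine (ENNReal.sum_lt_top.2 fun a _ => ENNReal.sum_lt_top.2 fun b _ => ?_).ne
  exact ENNReal.mul_lt_top (PMF.apply_lt_top _ _) (ENNReal.natCast_lt_top _)

/-- The set of transport plans. -/
def planSet (x y : V) : Set (G.neighborFinset x → G.neighborFinset y → ℝ) :=
  {w | (∀ a b, 0 ≤ w a b) ∧ (∀ a, ∑ b, w a b = 1 / (G.degree x : ℝ)) ∧
    (∀ b, ∑ a, w a b = 1 / (G.degree y : ℝ))}

theorem isCompact_planSet (x y : V) : IsCompact (planSet G x y) := by
  have hK : IsCompact (Set.pi Set.univ (fun _ : G.neighborFinset x =>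
      Set.pi Set.univ (fun _ : G.neighborFinset y => Set.Icc (0 : ℝ) 1))) :=
    isCompact_univ_pi fun _ => isCompact_univ_pi fun _ => isCompact_Icc
  refine hK.of_isClosed_subset ?_ ?_
  · have e : planSet G x y = (⋂ a, ⋂ b, {w | 0 ≤ w a b}) ∩
      ((⋂ a, {w | ∑ b, w a b = 1 / (G.degree x : ℝ)}) ∩
        (⋂ b, {w | ∑ a, w a b = 1 / (G.degree y : ℝ)})) := by
      ext w
      simp [planSet]
    rw [e]
    refine IsClosed.inter ?_ (IsClosed.inter ?_ ?_)
    · exact isClosed_iInter fun a => isClosed_iInter fun b =>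
        isClosed_le continuous_const (by fun_prop)
    · exact isClosed_iInter fun a => isClosed_eq (by fun_prop) continuous_const
    · exact isClosed_iInter fun a => isClosed_eq (by fun_prop) continuous_const
  · rintro w ⟨h0, h1, -⟩
    intro a _ b _
    refine ⟨h0 a b, ?_⟩
    have h2 : w a b ≤ ∑ b, w a b := Finset.single_le_sum (fun b _ => h0 a b) (Finset.mem_univ b)
    rw [h1] at h2
    refine h2.trans ?_
    have hd : 0 < G.degree x := by
      rw [← SimpleGraph.card_neighborFinset_eq_degree]
      exact Finset.card_pos.2 ⟨a, a.2⟩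
    rw [div_le_one (by exact_mod_cast hd)]
    exact_mod_cast hd

/-- If the Wasserstein distance between the one step laws is at most `c`, then there is a
transport plan of cost at most `c`. -/
theorem exists_plan {x y : V} (hx : (G.neighborFinset x).Nonempty)
    (hy : (G.neighborFinset y).Nonempty) {c : ℝ}
    (h : (W1 G (stepLaw G x) (stepLaw G y)).toReal ≤ c) :
    ∃ w, Plan G x y c w := by
  classical
  have hdx : (0 : ℝ) < G.degree x := by
    rw [← SimpleGraph.card_neighborFinset_eq_degree]
    exact_mod_cast Finset.card_pos.2 hx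
  have hdy : (0 : ℝ) < G.degree y := by
    rw [← SimpleGraph.card_neighborFinset_eq_degree]
    exact_mod_cast Finset.card_pos.2 hy
  have hne : (planSet G x y).Nonempty := by
    refine ⟨fun _ _ => 1 / ((G.degree x : ℝ) * G.degree y), ?_, ?_, ?_⟩
    · intro a b
      positivity
    · intro a
      rw [Finset.sum_const, Finset.card_univ, Fintype.card_coe,
        SimpleGraph.card_neighborFinset_eq_degree, nsmul_eq_mul]
      field_simp
    · intro a
      rw [Finset.sum_const, Finset.card_univ, Fintype.card_coe,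
        SimpleGraph.card_neighborFinset_eq_degree, nsmul_eq_mul]
      field_simp
  let cost : (G.neighborFinset x → G.neighborFinset y → ℝ) → ℝ :=
    fun w => ∑ a, ∑ b, w a b * (G.dist (a : V) (b : V) : ℝ)
  have hcc : Continuous cost := by
    simp only [cost]
    fun_prop
  obtain ⟨w0, hw0, hmin⟩ := (isCompact_planSet G x y).exists_isMinOn hne hcc.continuousOn
  have hcost0 : 0 ≤ cost w0 :=
    Finset.sum_nonneg fun a _ => Finset.sum_nonneg fun b _ =>
      mul_nonneg (hw0.1 a b) (Nat.cast_nonneg _)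
  have hlow : ENNReal.ofReal (cost w0) ≤ W1 G (stepLaw G x) (stepLaw G y) := by
    refine le_iInf₂ fun π hπ => ?_
    rw [coupling_cost G hx hy hπ]
    set w : G.neighborFinset x → G.neighborFinset y → ℝ := fun a b => (π (a, b)).toReal with hw
    have hwm : w ∈ planSet G x y := by
      refine ⟨fun a b => ENNReal.toReal_nonneg, fun a => ?_, fun b => ?_⟩
      · have h1 := coupling_row G hx hy hπ ((SimpleGraph.mem_neighborFinset _ _ _).1 a.2)
        have h2 := congrArg ENNReal.toReal h1
        rw [ENNReal.toReal_sum (fun b _ => PMF.apply_ne_top _ _), ENNReal.toReal_inv,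
          ENNReal.toReal_natCast, ← Finset.sum_coe_sort] at h2
        rw [one_div, ← h2]
      · have h1 := coupling_col G hx hy hπ ((SimpleGraph.mem_neighborFinset _ _ _).1 b.2)
        have h2 := congrArg ENNReal.toReal h1
        rw [ENNReal.toReal_sum (fun b _ => PMF.apply_ne_top _ _), ENNReal.toReal_inv,
          ENNReal.toReal_natCast, ← Finset.sum_coe_sort] at h2
        rw [one_div, ← h2]
    have h3 : cost w0 ≤ cost w := hmin hwm
    have h4 : cost w = (∑ a ∈ G.neighborFinset x, ∑ b ∈ G.neighborFinset y,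
        π (a, b) * (G.dist a b : ℝ≥0∞)).toReal := by
      rw [ENNReal.toReal_sum, ← Finset.sum_coe_sort (G.neighborFinset x)]
      · refine Finset.sum_congr rfl fun a _ => ?_
        rw [ENNReal.toReal_sum, ← Finset.sum_coe_sort (G.neighborFinset y)]
        · refine Finset.sum_congr rfl fun b _ => ?_
          rw [ENNReal.toReal_mul, ENNReal.toReal_natCast]
        · intro b _
          exact (ENNReal.mul_lt_top (PMF.apply_lt_top _ _) (ENNReal.natCast_lt_top _)).ne
      · intro a _
        exact (ENNReal.sum_lt_top.2 fun b _ =>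
          ENNReal.mul_lt_top (PMF.apply_lt_top _ _) (ENNReal.natCast_lt_top _)).ne
    rw [h4] at h3
    exact ENNReal.ofReal_le_of_le_toReal h3
  have hfin := exists_coupling_ne_top G hx hy
  have hc0 : cost w0 ≤ c := by
    have := ENNReal.toReal_mono hfin hlow
    rw [ENNReal.toReal_ofReal hcost0] at this
    exact this.trans h
  refine ⟨fun a b => if h : a ∈ G.neighborFinset x ∧ b ∈ G.neighborFinset y then
    w0 ⟨a, h.1⟩ ⟨b, h.2⟩ else 0, ?_, ?_, ?_, ?_, ?_⟩
  · intro a b
    split_ifs with h
    · exact hw0.1 _ _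
    · exact le_rfl
  · intro a b hab
    by_cases h : a ∈ G.neighborFinset x ∧ b ∈ G.neighborFinset y
    · exact ⟨(SimpleGraph.mem_neighborFinset _ _ _).1 h.1,
        (SimpleGraph.mem_neighborFinset _ _ _).1 h.2⟩
    · exact absurd (dif_neg h) hab
  · intro a ha
    have ha' : a ∈ G.neighborFinset x := (SimpleGraph.mem_neighborFinset _ _ _).2 ha
    rw [← hw0.2.1 ⟨a, ha'⟩, ← Finset.sum_coe_sort]
    refine Finset.sum_congr rfl fun b _ => ?_
    rw [dif_pos ⟨ha', b.2⟩]
  · intro b hb
    have hb' : b ∈ G.neighborFinset y := (SimpleGraph.mem_neighborFinset _ _ _).2 hb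
    rw [← hw0.2.2 ⟨b, hb'⟩, ← Finset.sum_coe_sort]
    refine Finset.sum_congr rfl fun a _ => ?_
    rw [dif_pos ⟨a.2, hb'⟩]
  · refine le_trans (le_of_eq ?_) hc0
    simp only [cost]
    rw [← Finset.sum_coe_sort]
    refine Finset.sum_congr rfl fun a _ => ?_
    rw [← Finset.sum_coe_sort]
    refine Finset.sum_congr rfl fun b _ => ?_
    rw [dif_pos ⟨a.2, b.2⟩]

end plan

end Pool.Agent.H141R3.Ollivier
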