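import Mathlib

set_option autoImplicit false

namespace Pool.Agent.H141R3.Scott

/-- Every (nonempty) directed subset has a supremum. -/
def IsDcpo (P : Type*) [PartialOrder P] : Prop :=
  ∀ D : Set P, D.Nonempty → DirectedOn (· ≤ ·) D → ∃ s, IsLUB D s

/-- Scott open sets: upper sets `U` such that every (nonempty) directed set whose supremum lies
in `U` meets `U`. -/
def ScottOpen {P : Type*} [PartialOrder P] (U : Set P) : Prop :=
  IsUpperSet U ∧ ∀ D : Set P, D.Nonempty → DirectedOn (· ≤ ·) D → ∀ s, IsLUB D s → s ∈ U →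
    (D ∩ U).Nonempty

/-- The Scott topology of a poset. -/
@[instance_reducible] def scottTopology (P : Type*) [PartialOrder P] : TopologicalSpace P where
  IsOpen := ScottOpen
  isOpen_univ := ⟨isUpperSet_univ, fun D hD _ _ _ _ => by rwa [Set.inter_univ]⟩
  isOpen_inter := by
    rintro U V ⟨hU1, hU2⟩ ⟨hV1, hV2⟩
    refine ⟨hU1.inter hV1, fun D hD hdir s hs hmem => ?_⟩
    obtain ⟨a, haD, haU⟩ := hU2 D hD hdir s hs hmem.1
    obtain ⟨b, hbD, hbV⟩ := hV2 D hD hdir s hs hmem.2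
    obtain ⟨c, hcD, hac, hbc⟩ := hdir a haD b hbD
    exact ⟨c, hcD, hU1 hac haU, hV1 hbc hbV⟩
  isOpen_sUnion := by
    intro 𝒰 h𝒰
    refine ⟨isUpperSet_sUnion fun U hU => (h𝒰 U hU).1, fun D hD hdir s hs hmem => ?_⟩
    obtain ⟨U, hU, hsU⟩ := hmem
    obtain ⟨a, haD, haU⟩ := (h𝒰 U hU).2 D hD hdir s hs hsU
    exact ⟨a, haD, U, hU, haU⟩

/-- A set is saturated if it is an intersection of open sets. -/
def Saturated {X : Type*} (t : TopologicalSpace X) (K : Set X) : Prop :=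
  ∃ 𝒰 : Set (Set X), (∀ U ∈ 𝒰, @IsOpen X t U) ∧ K = ⋂₀ 𝒰

/-- A `T₀` space is well-filtered if for every filtered family of compact saturated sets whose
intersection lies in an open set `U`, some member of the family lies in `U`. -/
def WellFiltered {X : Type*} (t : TopologicalSpace X) : Prop :=
  @T0Space X t ∧ ∀ 𝒦 : Set (Set X), 𝒦.Nonempty → DirectedOn (· ⊇ ·) 𝒦 →
    (∀ K ∈ 𝒦, @IsCompact X t K ∧ Saturated t K) →
    ∀ U : Set X, @IsOpen X t U → ⋂₀ 𝒦 ⊆ U → ∃ K ∈ 𝒦, K ⊆ U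

/-- A topology on a poset is compatible with the order if the closure of every point `x` is the
set of elements below `x`. -/
def Compatible {P : Type*} [PartialOrder P] (t : TopologicalSpace P) : Prop :=
  ∀ x : P, @closure P t {x} = Set.Iic x

/-- A poset is well-filtered if some compatible topology is well-filtered. -/
def WellFilteredPoset (P : Type*) [PartialOrder P] : Prop :=
  ∃ t : TopologicalSpace P, Compatible t ∧ WellFiltered t

section basic

variable {P : Type*} [PartialOrder P]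

theorem isOpen_iff {U : Set P} : @IsOpen P (scottTopology P) U ↔ ScottOpen U := Iff.rfl

theorem open_compl_Iic (x : P) : ScottOpen ((Set.Iic x)ᶜ) := by
  refine ⟨fun a b hab ha hb => ha (le_trans hab hb), fun D hD _ s hs hmem => ?_⟩
  by_contra hcon
  apply hmem
  refine hs.2 fun d hd => ?_
  by_contra h
  exact hcon ⟨d, hd, h⟩

theorem t0_scott (P : Type*) [PartialOrder P] : @T0Space P (scottTopology P) := by
  let := scottTopology P
  refine ⟨fun x y h => ?_⟩
  apply le_antisymm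
  · by_contra hn
    have h1 : x ∈ (Set.Iic y)ᶜ := hn
    have h2 := (h.mem_open_iff (isOpen_iff.2 (open_compl_Iic y))).1 h1
    exact h2 (le_refl y)
  · by_contra hn
    have h1 : y ∈ (Set.Iic x)ᶜ := hn
    have h2 := (h.mem_open_iff (isOpen_iff.2 (open_compl_Iic x))).2 h1
    exact h2 (le_refl x)

theorem isClosed_Iic' (x : P) : @IsClosed P (scottTopology P) (Set.Iic x) :=
  @IsClosed.mk P (scottTopology P) _ (open_compl_Iic x)

theorem saturated_of_isUpperSet {L : Set P} (hL : IsUpperSet L) :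
    Saturated (scottTopology P) L := by
  refine ⟨{U | ∃ x, x ∉ L ∧ U = (Set.Iic x)ᶜ}, ?_, ?_⟩
  · rintro U ⟨x, -, rfl⟩
    exact open_compl_Iic x
  · ext y
    constructor
    · rintro hy U ⟨x, hx, rfl⟩ hyx
      exact hx (hL hyx hy)
    · intro h
      by_contra hy
      exact h _ ⟨y, hy, rfl⟩ (le_refl y)

theorem Saturated.isUpperSet {K : Set P} (h : Saturated (scottTopology P) K) : IsUpperSet K := by
  obtain ⟨𝒰, h1, rfl⟩ := h
  exact isUpperSet_sInter fun U hU => (h1 U hU).1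

theorem isLowerSet_of_isClosed {A : Set P} (h : @IsClosed P (scottTopology P) A) :
    IsLowerSet A := by
  have h1 : ScottOpen Aᶜ := h.isOpen_compl
  exact isUpperSet_compl.1 h1.1

/-- The set of elements above a compact set is compact. -/
theorem isCompact_up {S : Set P} (hS : @IsCompact P (scottTopology P) S) :
    @IsCompact P (scottTopology P) {y | ∃ a ∈ S, a ≤ y} := by
  let := scottTopology P
  refine isCompact_of_finite_subcover fun U hU hcov => ?_
  have hcS : S ⊆ ⋃ i, U i := fun a ha => hcov ⟨a, ha, le_refl a⟩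
  obtain ⟨t, ht⟩ := hS.elim_finite_subcover U hU hcS
  refine ⟨t, ?_⟩
  rintro y ⟨a, ha, hay⟩
  obtain ⟨i, hi, hai⟩ := Set.mem_iUnion₂.1 (ht ha)
  exact Set.mem_iUnion₂.2 ⟨i, hi, (show ScottOpen (U i) from hU i).1 hay hai⟩

end basic

section minimal

variable {X : Type*} [TopologicalSpace X]

/-- A minimal closed set meeting all members of a filtered family of compact sets. -/
theorem exists_minimal {𝒦 : Set (Set X)} (hK : ∀ K ∈ 𝒦, IsCompact K) {C : Set X}
    (hC : IsClosed C) (hmeet : ∀ K ∈ 𝒦, (K ∩ C).Nonempty) :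
    ∃ A ⊆ C, IsClosed A ∧ (∀ K ∈ 𝒦, (K ∩ A).Nonempty) ∧
      ∀ B, IsClosed B → (∀ K ∈ 𝒦, (K ∩ (A ∩ B)).Nonempty) → A ⊆ B := by
  have hz := zorn_superset {A : Set X | IsClosed A ∧ A ⊆ C ∧ ∀ K ∈ 𝒦, (K ∩ A).Nonempty} (by
    intro c hc hchain
    rcases c.eq_empty_or_nonempty with rfl | hne
    · exact ⟨C, ⟨hC, le_rfl, hmeet⟩, fun _ h => absurd h (Set.notMem_empty _)⟩
    · refine ⟨⋂₀ c, ⟨isClosed_sInter fun A hA => (hc hA).1, ?_, ?_⟩,
        fun A hA => Set.sInter_subset_of_mem hA⟩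
      · obtain ⟨A, hA⟩ := hne
        exact (Set.sInter_subset_of_mem hA).trans (hc hA).2.1
      · intro K hKm
        by_contra hemp
        rw [Set.not_nonempty_iff_eq_empty] at hemp
        have hcov : K ⊆ ⋃ A : c, (A : Set X)ᶜ := by
          intro x hx
          rw [Set.mem_iUnion]
          by_contra hcon
          push Not at hcon
          have : x ∈ K ∩ ⋂₀ c := by
            refine ⟨hx, fun A hA => ?_⟩
            have := hcon ⟨A, hA⟩
            simpa using this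
          rw [hemp] at this
          exact this
        have : Nonempty c := hne.to_subtype
        obtain ⟨A, hA⟩ := (hK K hKm).elim_directed_cover (fun A : c => (A : Set X)ᶜ)
          (fun A => (hc A.2).1.isOpen_compl) hcov (by
            intro A B
            rcases hchain.total A.2 B.2 with h | h
            · exact ⟨A, le_rfl, Set.compl_subset_compl.2 h⟩
            · exact ⟨B, Set.compl_subset_compl.2 h, le_rfl⟩)
        obtain ⟨x, hx, hxA⟩ := (hc A.2).2.2 K hKm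
        exact hA hx hxA)
  obtain ⟨A, hA⟩ := hz
  refine ⟨A, hA.prop.2.1, hA.prop.1, hA.prop.2.2, fun B hB hmeetB => ?_⟩
  have h1 : A ∩ B ∈ {A : Set X | IsClosed A ∧ A ⊆ C ∧ ∀ K ∈ 𝒦, (K ∩ A).Nonempty} :=
    ⟨hA.prop.1.inter hB, Set.inter_subset_left.trans hA.prop.2.1, hmeetB⟩
  have h2 := hA.le_of_le h1 Set.inter_subset_left
  exact h2.trans Set.inter_subset_right

/-- The image of the minimal set under a continuous map to a Scott well-filtered poset has a
largest element in its closure. -/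
theorem exists_top {Y : Type*} [PartialOrder Y] (hY : WellFiltered (scottTopology Y)) {f : X → Y}
    (hf : @Continuous X Y _ (scottTopology Y) f) {𝒦 : Set (Set X)} (hne : 𝒦.Nonempty)
    (hdir : DirectedOn (· ⊇ ·) 𝒦) (hK : ∀ K ∈ 𝒦, IsCompact K) {A : Set X} (hA : IsClosed A)
    (hmeet : ∀ K ∈ 𝒦, (K ∩ A).Nonempty)
    (hmin : ∀ B, IsClosed B → (∀ K ∈ 𝒦, (K ∩ (A ∩ B)).Nonempty) → A ⊆ B) :
    ∃ p : Y, p ∈ @closure Y (scottTopology Y) (f '' A) ∧ (∀ a ∈ A, f a ≤ p) := by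
  let := scottTopology Y
  set L : Set X → Set Y := fun K => {y | ∃ a ∈ f '' (K ∩ A), a ≤ y} with hL
  have hLmono : ∀ K K', K ⊆ K' → L K ⊆ L K' := by
    rintro K K' h y ⟨a, ⟨x, hx, rfl⟩, hay⟩
    exact ⟨_, ⟨x, ⟨h hx.1, hx.2⟩, rfl⟩, hay⟩
  have hwf := hY.2 (L '' 𝒦) (hne.image L) (by
    rintro _ ⟨K, hKm, rfl⟩ _ ⟨K', hKm', rfl⟩
    obtain ⟨K'', hm, h1, h2⟩ := hdir K hKm K' hKm'
    exact ⟨L K'', ⟨K'', hm, rfl⟩, hLmono _ _ h1, hLmono _ _ h2⟩) (by
    rintro _ ⟨K, hKm, rfl⟩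
    constructor
    · exact isCompact_up (((hK K hKm).inter_right hA).image hf)
    · apply saturated_of_isUpperSet
      rintro y y' hyy ⟨a, ha, hay⟩
      exact ⟨a, ha, hay.trans hyy⟩) (closure (f '' A))ᶜ isClosed_closure.isOpen_compl
  have hex : ∃ p, p ∈ ⋂₀ (L '' 𝒦) ∧ p ∈ closure (f '' A) := by
    by_contra hcon
    push Not at hcon
    obtain ⟨_, ⟨K, hKm, rfl⟩, hsub⟩ := hwf (fun p hp => hcon p hp)
    obtain ⟨x, hx1, hx2⟩ := hmeet K hKm
    have h1 : f x ∈ L K := ⟨f x, ⟨x, ⟨hx1, hx2⟩, rfl⟩, le_refl _⟩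
    exact hsub h1 (subset_closure ⟨x, hx2, rfl⟩)
  obtain ⟨p, hp1, hp2⟩ := hex
  refine ⟨p, hp2, ?_⟩
  have hcl : IsClosed (f ⁻¹' (Set.Iic p)) := (isClosed_Iic' p).preimage hf
  have := hmin _ hcl (by
    intro K hKm
    obtain ⟨a, ⟨x, hx, rfl⟩, hap⟩ := hp1 (L K) ⟨K, hKm, rfl⟩
    exact ⟨x, hx.1, hx.2, hap⟩)
  intro a ha
  exact this ha

end minimal

section product

variable {P Q : Type*} [PartialOrder P] [PartialOrder Q]

theorem continuous_of_lub {X Y : Type*} [PartialOrder X] [PartialOrder Y] {f : X → Y}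
    (hmono : Monotone f)
    (hf : ∀ (D : Set X) (s : X), D.Nonempty → DirectedOn (· ≤ ·) D → IsLUB D s →
      IsLUB (f '' D) (f s)) :
    @Continuous X Y (scottTopology X) (scottTopology Y) f := by
  refine @Continuous.mk X Y (scottTopology X) (scottTopology Y) f ?_
  rintro U ⟨hU1, hU2⟩
  refine ⟨fun a b hab ha => hU1 (hmono hab) ha, fun D hD hdir s hs hmem => ?_⟩
  obtain ⟨_, ⟨d, hd, rfl⟩, hdU⟩ := hU2 (f '' D) (hD.image f) (by
    rintro _ ⟨a, ha, rfl⟩ _ ⟨b, hb, rfl⟩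
    obtain ⟨c, hc, h1, h2⟩ := hdir a ha b hb
    exact ⟨f c, ⟨c, hc, rfl⟩, hmono h1, hmono h2⟩) (f s) (hf D s hD hdir hs) hmem
  exact ⟨d, hd, hdU⟩

theorem continuous_fst' :
    @Continuous (P × Q) P (scottTopology (P × Q)) (scottTopology P) Prod.fst :=
  continuous_of_lub monotone_fst fun _ _ _ _ hs => (isLUB_prod.1 hs).1

theorem continuous_snd' :
    @Continuous (P × Q) Q (scottTopology (P × Q)) (scottTopology Q) Prod.snd :=
  continuous_of_lub monotone_snd fun _ _ _ _ hs => (isLUB_prod.1 hs).2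

theorem continuous_mk_left (q : Q) :
    @Continuous P (P × Q) (scottTopology P) (scottTopology (P × Q)) (fun x => (x, q)) := by
  refine continuous_of_lub (fun a b h => ⟨h, le_refl q⟩) fun D s hD _ hs => ?_
  rw [isLUB_prod]
  constructor
  · have : Prod.fst '' ((fun x => (x, q)) '' D) = D := by
      rw [Set.image_image]
      simp
    rw [this]
    exact hs
  · have : Prod.snd '' ((fun x => (x, q)) '' D) = {q} := by
      rw [Set.image_image]
      exact hD.image_const q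
    rw [this]
    exact isLUB_singleton

theorem continuous_mk_right (p : P) :
    @Continuous Q (P × Q) (scottTopology Q) (scottTopology (P × Q)) (fun y => (p, y)) := by
  refine continuous_of_lub (fun a b h => ⟨le_refl p, h⟩) fun D s hD _ hs => ?_
  rw [isLUB_prod]
  constructor
  · have : Prod.fst '' ((fun y => (p, y)) '' D) = {p} := by
      rw [Set.image_image]
      exact hD.image_const p
    rw [this]
    exact isLUB_singleton
  · have : Prod.snd '' ((fun y => (p, y)) '' D) = D := by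
      rw [Set.image_image]
      simp
    rw [this]
    exact hs

/-- The product of two Scott well-filtered posets is Scott well-filtered. -/
theorem prod_wellFiltered (hP : WellFiltered (scottTopology P))
    (hQ : WellFiltered (scottTopology Q)) : WellFiltered (scottTopology (P × Q)) := by
  refine ⟨t0_scott _, fun 𝒦 hne hdir hK U hU hsub => ?_⟩
  by_contra hcon
  push Not at hcon
  let tPQ : TopologicalSpace (P × Q) := scottTopology (P × Q)
  have hKc : ∀ K ∈ 𝒦, IsCompact K := fun K h => (hK K h).1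
  have hKu : ∀ K ∈ 𝒦, IsUpperSet K := fun K h => (hK K h).2.isUpperSet
  have hU' : IsOpen U := hU
  have hmeet0 : ∀ K ∈ 𝒦, (K ∩ Uᶜ).Nonempty := by
    intro K h
    obtain ⟨x, hx, hxU⟩ := Set.not_subset.1 (hcon K h)
    exact ⟨x, hx, hxU⟩
  obtain ⟨A, hAC, hAcl, hmeet, hmin⟩ := exists_minimal hKc hU'.isClosed_compl hmeet0
  have hAlow : IsLowerSet A := isLowerSet_of_isClosed hAcl
  obtain ⟨p, hp1, hp2⟩ := exists_top hP continuous_fst' hne hdir hKc hAcl hmeet hmin
  obtain ⟨q, hq1, hq2⟩ := exists_top hQ continuous_snd' hne hdir hKc hAcl hmeet hmin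
  -- the corner is not in `A`
  have hpq : (p, q) ∉ A := by
    intro hmem
    have h1 : (p, q) ∈ ⋂₀ 𝒦 := by
      intro K h
      obtain ⟨x, hx1, hx2⟩ := hmeet K h
      exact hKu K h (show x ≤ (p, q) from ⟨hp2 x hx2, hq2 x hx2⟩) hx1
    exact hAC hmem (hsub h1)
  -- a closed set whose preimage meets all members contains the closure of the projection
  have hfst : ∀ B : Set P, @IsClosed P (scottTopology P) B →
      (∀ K ∈ 𝒦, (K ∩ (A ∩ Prod.fst ⁻¹' B)).Nonempty) → p ∈ B := by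
    intro B hB h
    have h1 := hmin _ (@IsClosed.preimage (P × Q) P tPQ (scottTopology P) _ continuous_fst' B hB) h
    have h2 : Prod.fst '' A ⊆ B := by
      rintro _ ⟨a, ha, rfl⟩
      exact h1 ha
    exact (@closure_minimal P (scottTopology P) _ _ h2 hB) hp1
  have hsnd : ∀ B : Set Q, @IsClosed Q (scottTopology Q) B →
      (∀ K ∈ 𝒦, (K ∩ (A ∩ Prod.snd ⁻¹' B)).Nonempty) → q ∈ B := by
    intro B hB h
    have h1 := hmin _ (@IsClosed.preimage (P × Q) Q tPQ (scottTopology Q) _ continuous_snd' B hB) h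
    have h2 : Prod.snd '' A ⊆ B := by
      rintro _ ⟨a, ha, rfl⟩
      exact h1 ha
    exact (@closure_minimal Q (scottTopology Q) _ _ h2 hB) hq1
  -- step 2
  have hS : @IsClosed P (scottTopology P) ((fun x => (x, q)) ⁻¹' A) :=
    @IsClosed.preimage P (P × Q) (scottTopology P) tPQ _ (continuous_mk_left q) A hAcl
  obtain ⟨K₀, hK₀, hK₀S⟩ : ∃ K ∈ 𝒦, ¬ (K ∩ (A ∩ Prod.fst ⁻¹' ((fun x => (x, q)) ⁻¹' A))).Nonempty := by
    by_contra h
    push Not at h
    exact hpq (hfst _ hS h)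
  have h0 : ∀ x ∈ K₀ ∩ A, (x.1, q) ∉ A := fun x hx h => hK₀S ⟨x, hx.1, hx.2, h⟩
  -- step 3
  have h3 : ∀ x ∈ K₀ ∩ A, ∃ K ∈ 𝒦, ∀ y ∈ K ∩ A, (x.1, y.2) ∉ A := by
    intro x hx
    have hT : @IsClosed Q (scottTopology Q) ((fun y => (x.1, y)) ⁻¹' A) :=
      @IsClosed.preimage Q (P × Q) (scottTopology Q) tPQ _ (continuous_mk_right x.1) A hAcl
    by_contra h
    push Not at h
    apply h0 x hx
    refine hsnd _ hT fun K hKm => ?_
    obtain ⟨y, hy, hyA⟩ := h K hKm
    exact ⟨y, hy.1, hy.2, hyA⟩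
  -- step 4
  have h4 : ∀ K ∈ 𝒦, ScottOpen {x : P | ∀ y ∈ K ∩ A, (x, y.2) ∉ A} := by
    intro K hKm
    refine ⟨fun a b hab ha y hy h => ha y hy (hAlow (show (a, y.2) ≤ (b, y.2) from ⟨hab, le_refl _⟩) h),
      fun D hD hdirD s hs hmem => ?_⟩
    have hcomp : IsCompact (K ∩ A) := (hKc K hKm).inter_right hAcl
    have : Nonempty D := hD.to_subtype
    have hop : ∀ d : D, IsOpen {z : P × Q | ((d : P), z.2) ∉ A} := by
      intro d
      have hc : Continuous (fun z : P × Q => ((d : P), z.2)) :=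
        @Continuous.comp (P × Q) Q (P × Q) tPQ (scottTopology Q) tPQ _ _
          (continuous_mk_right (d : P)) continuous_snd'
      exact (hAcl.preimage hc).isOpen_compl
    obtain ⟨d, hd⟩ := hcomp.elim_directed_cover (fun d : D => {z : P × Q | ((d : P), z.2) ∉ A}) hop (by
      intro z hz
      rw [Set.mem_iUnion]
      have h5 : ScottOpen ((fun x => (x, z.2)) ⁻¹' A)ᶜ :=
        (@IsClosed.preimage P (P × Q) (scottTopology P) tPQ _ (continuous_mk_left z.2) A
          hAcl).isOpen_compl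
      obtain ⟨d, hdD, hdA⟩ := h5.2 D hD hdirD s hs (hmem z hz)
      exact ⟨⟨d, hdD⟩, hdA⟩) (by
      intro a b
      obtain ⟨c, hc, h1, h2⟩ := hdirD a a.2 b b.2
      exact ⟨⟨c, hc⟩,
        fun z hz h => hz (hAlow (show ((a : P), z.2) ≤ (c, z.2) from ⟨h1, le_refl _⟩) h),
        fun z hz h => hz (hAlow (show ((b : P), z.2) ≤ (c, z.2) from ⟨h2, le_refl _⟩) h)⟩)
    exact ⟨d, d.2, fun y hy => hd hy⟩
  have hcomp0 : IsCompact (K₀ ∩ A) := (hKc K₀ hK₀).inter_right hAcl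
  have : Nonempty 𝒦 := hne.to_subtype
  obtain ⟨K₁, hK₁⟩ := hcomp0.elim_directed_cover
    (fun K : 𝒦 => Prod.fst ⁻¹' {x : P | ∀ y ∈ (K : Set (P × Q)) ∩ A, (x, y.2) ∉ A})
    (fun K => @IsOpen.preimage (P × Q) P tPQ (scottTopology P) _ continuous_fst' _ (h4 K K.2)) (by
      intro x hx
      obtain ⟨K, hKm, h⟩ := h3 x hx
      exact Set.mem_iUnion.2 ⟨⟨K, hKm⟩, h⟩) (by
      intro K K'
      obtain ⟨K'', hm, h1, h2⟩ := hdir K K.2 K' K'.2
      exact ⟨⟨K'', hm⟩, fun x hx y hy => hx y ⟨h1 hy.1, hy.2⟩,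
        fun x hx y hy => hx y ⟨h2 hy.1, hy.2⟩⟩)
  obtain ⟨K₂, hK₂, h1, h2⟩ := hdir K₀ hK₀ K₁ K₁.2
  obtain ⟨x, hx1, hx2⟩ := hmeet K₂ hK₂
  exact hK₁ ⟨h1 hx1, hx2⟩ x ⟨h2 hx1, hx2⟩ hx2

/-- A retraction argument: the factors of a Scott well-filtered product are Scott
well-filtered. -/
theorem wellFiltered_left (q : Q) (h : WellFiltered (scottTopology (P × Q))) :
    WellFiltered (scottTopology P) := by
  refine ⟨t0_scott _, fun 𝒦 hne hdir hK U hU hsub => ?_⟩
  set L : Set P → Set (P × Q) := fun K => {z | ∃ a ∈ (fun x => (x, q)) '' K, a ≤ z} with hL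
  have hLmono : ∀ K K', K ⊆ K' → L K ⊆ L K' := by
    rintro K K' h y ⟨a, ⟨x, hx, rfl⟩, hay⟩
    exact ⟨_, ⟨x, h hx, rfl⟩, hay⟩
  obtain ⟨_, ⟨K, hKm, rfl⟩, hsub'⟩ := h.2 (L '' 𝒦) (hne.image L) (by
    rintro _ ⟨K, hKm, rfl⟩ _ ⟨K', hKm', rfl⟩
    obtain ⟨K'', hm, h1, h2⟩ := hdir K hKm K' hKm'
    exact ⟨L K'', ⟨K'', hm, rfl⟩, hLmono _ _ h1, hLmono _ _ h2⟩) (by
    rintro _ ⟨K, hKm, rfl⟩
    constructor
    · exact isCompact_up (@IsCompact.image P (P × Q) (scottTopology P) (scottTopology (P × Q)) _ _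
        (hK K hKm).1 (continuous_mk_left q))
    · apply saturated_of_isUpperSet
      rintro y y' hyy ⟨a, ha, hay⟩
      exact ⟨a, ha, hay.trans hyy⟩) (Prod.fst ⁻¹' U)
    (@IsOpen.preimage (P × Q) P (scottTopology (P × Q)) (scottTopology P) _ continuous_fst' _ hU) (by
      intro z hz
      apply hsub
      intro K hKm
      obtain ⟨_, ⟨x, hx, rfl⟩, hxz⟩ := hz (L K) ⟨K, hKm, rfl⟩
      exact (hK K hKm).2.isUpperSet hxz.1 hx)
  exact ⟨K, hKm, fun x hx => hsub' (show (x, q) ∈ L K from ⟨_, ⟨x, hx, rfl⟩, le_refl _⟩)⟩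

theorem wellFiltered_right (p : P) (h : WellFiltered (scottTopology (P × Q))) :
    WellFiltered (scottTopology Q) := by
  refine ⟨t0_scott _, fun 𝒦 hne hdir hK U hU hsub => ?_⟩
  set L : Set Q → Set (P × Q) := fun K => {z | ∃ a ∈ (fun x => (p, x)) '' K, a ≤ z} with hL
  have hLmono : ∀ K K', K ⊆ K' → L K ⊆ L K' := by
    rintro K K' h y ⟨a, ⟨x, hx, rfl⟩, hay⟩
    exact ⟨_, ⟨x, h hx, rfl⟩, hay⟩
  obtain ⟨_, ⟨K, hKm, rfl⟩, hsub'⟩ := h.2 (L '' 𝒦) (hne.image L) (by
    rintro _ ⟨K, hKm, rfl⟩ _ ⟨K', hKm', rfl⟩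
    obtain ⟨K'', hm, h1, h2⟩ := hdir K hKm K' hKm'
    exact ⟨L K'', ⟨K'', hm, rfl⟩, hLmono _ _ h1, hLmono _ _ h2⟩) (by
    rintro _ ⟨K, hKm, rfl⟩
    constructor
    · exact isCompact_up (@IsCompact.image Q (P × Q) (scottTopology Q) (scottTopology (P × Q)) _ _
        (hK K hKm).1 (continuous_mk_right p))
    · apply saturated_of_isUpperSet
      rintro y y' hyy ⟨a, ha, hay⟩
      exact ⟨a, ha, hay.trans hyy⟩) (Prod.snd ⁻¹' U)
    (@IsOpen.preimage (P × Q) Q (scottTopology (P × Q)) (scottTopology Q) _ continuous_snd' _ hU) (by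
      intro z hz
      apply hsub
      intro K hKm
      obtain ⟨_, ⟨x, hx, rfl⟩, hxz⟩ := hz (L K) ⟨K, hKm, rfl⟩
      exact (hK K hKm).2.isUpperSet hxz.2 hx)
  exact ⟨K, hKm, fun x hx => hsub' (show (p, x) ∈ L K from ⟨_, ⟨x, hx, rfl⟩, le_refl _⟩)⟩

end product

end Pool.Agent.H141R3.Scott
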