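import Pool.Agent.H141R3.Ollivier

set_option autoImplicit false

namespace Pool.Agent.H141R3.Ollivier

variable {V : Type}

/-- `k` consecutive steps along a relation. -/
inductive Steps (R : V → V → Prop) : ℕ → V → V → Prop
  | nil (a : V) : Steps R 0 a a
  | cons {k : ℕ} {a b c : V} : R a b → Steps R k b c → Steps R (k + 1) a c

section

variable (G : SimpleGraph V)

theorem walk_le {f : V → ℝ} {L : ℝ} (hL : ∀ a b, G.Adj a b → f b - f a ≤ L) {a b : V}
    (p : G.Walk a b) : f b - f a ≤ L * (p.length : ℝ) := by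
  induction p with
  | nil => simp
  | cons h q ih =>
    have := hL _ _ h
    rw [SimpleGraph.Walk.length_cons]
    push_cast
    linarith

theorem dist_le {f : V → ℝ} {L : ℝ} (hL : ∀ a b, G.Adj a b → f b - f a ≤ L)
    (hG : G.Connected) (a b : V) : f b - f a ≤ L * (G.dist a b : ℝ) := by
  obtain ⟨p, hp⟩ := hG.exists_walk_length_eq_dist a b
  rw [← hp]
  exact walk_le G hL p

theorem walk_steps {f : V → ℝ} {L : ℝ} (hL : ∀ a b, G.Adj a b → f b - f a ≤ L) {a b : V}
    (p : G.Walk a b) (h : f b - f a = L * (p.length : ℝ)) :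
    Steps (fun u v => G.Adj u v ∧ f v - f u = L) p.length a b := by
  induction p with
  | nil => exact Steps.nil _
  | cons hadj q ih =>
    have h1 := hL _ _ hadj
    have h2 := walk_le G hL q
    rw [SimpleGraph.Walk.length_cons] at h ⊢
    push_cast at h
    refine Steps.cons ⟨hadj, ?_⟩ (ih ?_)
    · linarith
    · linarith

theorem dist_steps {f : V → ℝ} {L : ℝ} (hL : ∀ a b, G.Adj a b → f b - f a ≤ L)
    (hG : G.Connected) {a b : V} (h : f b - f a = L * (G.dist a b : ℝ)) :
    Steps (fun u v => G.Adj u v ∧ f v - f u = L) (G.dist a b) a b := by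
  obtain ⟨p, hp⟩ := hG.exists_walk_length_eq_dist a b
  rw [← hp] at h ⊢
  exact walk_steps G hL p h

end

namespace Plan

variable {G : SimpleGraph V} [G.LocallyFinite] {x y : V} {c : ℝ} {w : V → V → ℝ}

theorem sum_left (h : Plan G x y c w) (g : V → ℝ) :
    ∑ a ∈ G.neighborFinset x, ∑ b ∈ G.neighborFinset y, w a b * g a =
      (∑ a ∈ G.neighborFinset x, g a) / (G.degree x : ℝ) := by
  rw [Finset.sum_div]
  refine Finset.sum_congr rfl fun a ha => ?_
  rw [← Finset.sum_mul, h.row a ((SimpleGraph.mem_neighborFinset _ _ _).1 ha)]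
  ring

theorem sum_right (h : Plan G x y c w) (g : V → ℝ) :
    ∑ a ∈ G.neighborFinset x, ∑ b ∈ G.neighborFinset y, w a b * g b =
      (∑ b ∈ G.neighborFinset y, g b) / (G.degree y : ℝ) := by
  rw [Finset.sum_comm, Finset.sum_div]
  refine Finset.sum_congr rfl fun a ha => ?_
  rw [← Finset.sum_mul, h.col a ((SimpleGraph.mem_neighborFinset _ _ _).1 ha)]
  ring

/-- If a nonnegative function has nonpositive integral for the plan, it vanishes on its support. -/
theorem eq_zero_of_sum (h : Plan G x y c w) {F : V → V → ℝ}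
    (hF : ∀ a b, w a b ≠ 0 → 0 ≤ F a b)
    (hs : ∑ a ∈ G.neighborFinset x, ∑ b ∈ G.neighborFinset y, w a b * F a b ≤ 0) :
    ∀ a b, w a b ≠ 0 → F a b = 0 := by
  have hnn : ∀ a b, 0 ≤ w a b * F a b := by
    intro a b
    by_cases h0 : w a b = 0
    · simp [h0]
    · exact mul_nonneg (h.nonneg a b) (hF a b h0)
  intro a b hab
  obtain ⟨h1, h2⟩ := h.supp a b hab
  have h3 : ∑ a ∈ G.neighborFinset x, ∑ b ∈ G.neighborFinset y, w a b * F a b = 0 :=
    le_antisymm hs (Finset.sum_nonneg fun a _ => Finset.sum_nonneg fun b _ => hnn a b)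
  rw [Finset.sum_eq_zero_iff_of_nonneg (fun a _ => Finset.sum_nonneg fun b _ => hnn a b)] at h3
  have h4 := h3 a ((SimpleGraph.mem_neighborFinset _ _ _).2 h1)
  rw [Finset.sum_eq_zero_iff_of_nonneg (fun b _ => hnn a b)] at h4
  have h5 := h4 b ((SimpleGraph.mem_neighborFinset _ _ _).2 h2)
  rcases mul_eq_zero.1 h5 with h6 | h6
  · exact absurd h6 hab
  · exact h6

/-- The maximum principle: an optimal plan along an edge on which the function `f` has its
largest slope only moves mass along geodesics of largest slope. -/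
theorem slope (h : Plan G x y 1 w) (hG : G.Connected) {f : V → ℝ} {L m : ℝ} (hL0 : 0 ≤ L)
    (hL : ∀ a b, G.Adj a b → f b - f a ≤ L)
    (hx : (∑ a ∈ G.neighborFinset x, f a) / (G.degree x : ℝ) = f x + m)
    (hy : (∑ b ∈ G.neighborFinset y, f b) / (G.degree y : ℝ) = f y + m)
    (hxy : f y - f x = L) :
    ∀ a b, w a b ≠ 0 → f b - f a = L * (G.dist a b : ℝ) := by
  have key := h.eq_zero_of_sum (F := fun a b => L * (G.dist a b : ℝ) - (f b - f a))
    (fun a b _ => by
      have := dist_le G hL hG a b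
      linarith) (by
      have h1 := h.sum_left f
      have h2 := h.sum_right f
      have h3 := h.cost
      have e : ∑ a ∈ G.neighborFinset x, ∑ b ∈ G.neighborFinset y,
          w a b * (L * (G.dist a b : ℝ) - (f b - f a)) =
          L * (∑ a ∈ G.neighborFinset x, ∑ b ∈ G.neighborFinset y, w a b * (G.dist a b : ℝ)) -
          ((∑ a ∈ G.neighborFinset x, ∑ b ∈ G.neighborFinset y, w a b * f b) -
            ∑ a ∈ G.neighborFinset x, ∑ b ∈ G.neighborFinset y, w a b * f a) := by
        rw [Finset.mul_sum, ← Finset.sum_sub_distrib, ← Finset.sum_sub_distrib]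
        refine Finset.sum_congr rfl fun a _ => ?_
        rw [Finset.mul_sum, ← Finset.sum_sub_distrib, ← Finset.sum_sub_distrib]
        refine Finset.sum_congr rfl fun b _ => ?_
        ring
      rw [e, h1, h2, hx, hy]
      nlinarith)
  intro a b hab
  have := key a b hab
  linarith

end Plan

end Pool.Agent.H141R3.Ollivier
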